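import Mathlib

/-!
# T-QUAD, piece P7: the conic on a plane section and the retraction

`B` is a symmetric bilinear form on a module over a commutative ring.
-/

set_option autoImplicit false

namespace Pool.Agent.Helper92.QU

variable {R M : Type*} [CommRing R] [AddCommGroup M] [Module R M] (B : M →ₗ[R] M →ₗ[R] R)

/-- the Gram determinant of one vector -/
def D1 (v1 : M) : R := B v1 v1

/-- the Gram determinant of two vectors -/
def D2 (v1 v2 : M) : R := B v1 v1 * B v2 v2 - B v1 v2 ^ 2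

/-- the Gram determinant of three vectors -/
def D3 (v1 v2 v3 : M) : R :=
  B v1 v1 * B v2 v2 * B v3 v3 + 2 * B v1 v2 * B v2 v3 * B v1 v3 - B v1 v1 * B v2 v3 ^ 2 -
    B v2 v2 * B v1 v3 ^ 2 - B v3 v3 * B v1 v2 ^ 2

/-- the cofactors -/
def C31 (v1 v2 v3 : M) : R := B v1 v2 * B v2 v3 - B v1 v3 * B v2 v2

def C32 (v1 v2 v3 : M) : R := B v1 v2 * B v1 v3 - B v1 v1 * B v2 v3

/-- the vector of the plane `<v1, v2, v3>` attached to a point of the conic -/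
def vec (v1 v2 v3 : M) (x y : R) : M :=
  x • v1 + y • (B v1 v1 • v2 - B v1 v2 • v1) +
    B v1 v1 • (C31 B v1 v2 v3 • v1 + C32 B v1 v2 v3 • v2 + D2 B v1 v2 • v3)

/-- **P7a.** -/
theorem q_vec (hB : ∀ v w, B v w = B w v) (v1 v2 v3 : M) (x y : R) :
    B (vec B v1 v2 v3 x y) (vec B v1 v2 v3 x y) =
      D1 B v1 * (x ^ 2 + D2 B v1 v2 * y ^ 2 + D1 B v1 * D2 B v1 v2 * D3 B v1 v2 v3) := by
  simp only [vec, D1, D2, D3, C31, C32, map_add, map_sub, map_smul, LinearMap.add_apply,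
    LinearMap.sub_apply, LinearMap.smul_apply, smul_eq_mul]
  rw [hB v2 v1, hB v3 v1, hB v3 v2]
  ring

/-- the point of the conic attached to a vector: the coordinates -/
def xOf (i1 : R) (v1 u : M) : R := i1 * B u v1

def yOf (i1 i2 : R) (v1 v2 u : M) : R := i1 * i2 * (B v1 v1 * B u v2 - B v1 v2 * B u v1)

/-- the component orthogonal to `v1, v2`, divided by `D1 D2` -/
def vOf (i1 i2 : R) (v1 v2 u : M) : M :=
  (i1 * i2) • (u - xOf B i1 v1 u • v1 - yOf B i1 i2 v1 v2 u • (B v1 v1 • v2 - B v1 v2 • v1))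

theorem vOf_fst (hB : ∀ v w, B v w = B w v) {i1 i2 : R} {v1 v2 : M} (h1 : D1 B v1 * i1 = 1)
    (u : M) : B v1 (vOf B i1 i2 v1 v2 u) = 0 := by
  simp only [vOf, xOf, yOf, map_sub, map_smul, smul_eq_mul]
  rw [hB v1 u]
  unfold D1 at h1
  linear_combination (-(i1 * i2) * B u v1) * h1

theorem vOf_snd (hB : ∀ v w, B v w = B w v) {i1 i2 : R} {v1 v2 : M} (h1 : D1 B v1 * i1 = 1)
    (h2 : D2 B v1 v2 * i2 = 1) (u : M) : B v2 (vOf B i1 i2 v1 v2 u) = 0 := by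
  simp only [vOf, xOf, yOf, map_sub, map_smul, smul_eq_mul]
  rw [hB v2 u, hB v2 v1]
  unfold D1 at h1
  unfold D2 at h2
  linear_combination (-(i1 * i2) * B u v2) * h1 +
    (-(i1 ^ 2 * i2) * (B v1 v1 * B u v2 - B v1 v2 * B u v1)) * h2

/-- **P7b, the vector.** -/
theorem vec_vOf (hB : ∀ v w, B v w = B w v) {i1 i2 : R} {v1 v2 : M} (h1 : D1 B v1 * i1 = 1)
    (h2 : D2 B v1 v2 * i2 = 1) (u : M) :
    vec B v1 v2 (vOf B i1 i2 v1 v2 u) (xOf B i1 v1 u) (yOf B i1 i2 v1 v2 u) = u := by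
  have e1 := vOf_fst B hB (i2 := i2) (v2 := v2) h1 u
  have e2 := vOf_snd B hB h1 h2 u
  have c1 : C31 B v1 v2 (vOf B i1 i2 v1 v2 u) = 0 := by
    unfold C31
    rw [e1, e2]
    ring
  have c2 : C32 B v1 v2 (vOf B i1 i2 v1 v2 u) = 0 := by
    unfold C32
    rw [e1, e2]
    ring
  unfold vec
  rw [c1, c2, zero_smul, zero_smul, zero_add, zero_add, smul_smul]
  have h3 : B v1 v1 * D2 B v1 v2 * (i1 * i2) = 1 := by
    unfold D1 at h1
    calc B v1 v1 * D2 B v1 v2 * (i1 * i2) = (B v1 v1 * i1) * (D2 B v1 v2 * i2) := by ring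
      _ = 1 := by rw [h1, h2, one_mul]
  conv_lhs =>
    arg 2
    rw [vOf, smul_smul, h3, one_smul]
  abel

/-- **P7b, the conic.** -/
theorem conic_vOf (hB : ∀ v w, B v w = B w v) {i1 i2 : R} {v1 v2 : M} (h1 : D1 B v1 * i1 = 1)
    (h2 : D2 B v1 v2 * i2 = 1) {u : M} (hu : B u u = 0) :
    xOf B i1 v1 u ^ 2 = (-D2 B v1 v2) * yOf B i1 i2 v1 v2 u ^ 2 +
      (-(D1 B v1 * D2 B v1 v2 * D3 B v1 v2 (vOf B i1 i2 v1 v2 u))) := by
  have h3 := q_vec B hB v1 v2 (vOf B i1 i2 v1 v2 u) (xOf B i1 v1 u) (yOf B i1 i2 v1 v2 u)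
  rw [vec_vOf B hB h1 h2 u, hu] at h3
  linear_combination (-i1) * h3 - (xOf B i1 v1 u ^ 2 + D2 B v1 v2 * yOf B i1 i2 v1 v2 u ^ 2 +
    D1 B v1 * D2 B v1 v2 * D3 B v1 v2 (vOf B i1 i2 v1 v2 u)) * h1

end Pool.Agent.Helper92.QU
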