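import Pool.Agent.Helper49.QU.Defs
import Pool.Agent.Helper92.QU.Retr

/-!
# T-QUAD, pieces P7a and P7b for matrices
-/

set_option autoImplicit false

namespace Pool.Agent.Helper92.QU

open Matrix Pool.Agent.Helper49.QU

variable {R : Type*} [CommRing R] {M : ℕ}

/-- the bilinear form of a matrix -/
noncomputable def lm (B : Matrix (Fin M) (Fin M) R) : (Fin M → R) →ₗ[R] (Fin M → R) →ₗ[R] R :=
  Matrix.toBilin' B

theorem lm_apply (B : Matrix (Fin M) (Fin M) R) (v w : Fin M → R) : lm B v w = bil B v w :=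
  (bil_eq B v w).symm

theorem lm_symm (B : Matrix (Fin M) (Fin M) R) (hB : B.IsSymm) (v w : Fin M → R) :
    lm B v w = lm B w v := by
  rw [lm_apply, lm_apply]
  exact bil_comm hB v w

theorem D1_eq (B : Matrix (Fin M) (Fin M) R) (v : Fin 3 → Fin M → R) :
    Pool.Agent.Helper49.QU.D1 B v = D1 (lm B) (v 0) := by
  unfold Pool.Agent.Helper49.QU.D1 D1
  rw [lm_apply]

theorem D2_eq (B : Matrix (Fin M) (Fin M) R) (v : Fin 3 → Fin M → R) :
    Pool.Agent.Helper49.QU.D2 B v = D2 (lm B) (v 0) (v 1) := by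
  unfold Pool.Agent.Helper49.QU.D2 D2
  simp only [lm_apply]

theorem D3_eq (B : Matrix (Fin M) (Fin M) R) (hB : B.IsSymm) (v : Fin 3 → Fin M → R) :
    Pool.Agent.Helper49.QU.D3 B v = D3 (lm B) (v 0) (v 1) (v 2) := by
  unfold Pool.Agent.Helper49.QU.D3 D3
  rw [Matrix.det_fin_three]
  simp only [Matrix.of_apply, lm_apply]
  have h : ∀ c d, bil B (v c) (v d) = bil B (v d) (v c) := fun c d => by
    rw [← lm_apply, ← lm_apply, lm_symm B hB]
  rw [h 1 0, h 2 0, h 2 1]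
  ring

theorem upt_eq (B : Matrix (Fin M) (Fin M) R) (v : Fin 3 → Fin M → R) (x y : R) :
    upt B v x y = vec (lm B) (v 0) (v 1) (v 2) x y := by
  funext j
  unfold upt vec C31 C32
  rw [D1_eq, D2_eq]
  unfold D1
  simp only [Pi.add_apply, Pi.sub_apply, Pi.smul_apply, smul_eq_mul, lm_apply]
  ring

/-- **P7a.** -/
theorem bil_upt (B : Matrix (Fin M) (Fin M) R) (hB : B.IsSymm) (v : Fin 3 → Fin M → R) (x y : R) :
    bil B (upt B v x y) (upt B v x y) =
      Pool.Agent.Helper49.QU.D1 B v * (x ^ 2 - qa B v * y ^ 2 - qb B v) := by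
  rw [upt_eq, ← lm_apply, q_vec (lm B) (lm_symm B hB)]
  unfold qa qb
  rw [D1_eq, D2_eq, D3_eq B hB]
  ring

/-- **P7b.** every isotropic vector is `upt` of given `v 0`, `v 1` -/
theorem exists_upt (B : Matrix (Fin M) (Fin M) R) (hB : B.IsSymm) (v : Fin 3 → Fin M → R)
    (h1 : IsUnit (Pool.Agent.Helper49.QU.D1 B v)) (h2 : IsUnit (Pool.Agent.Helper49.QU.D2 B v))
    (u : Fin M → R) (hu : bil B u u = 0) :
    ∃ (w : Fin M → R) (x y : R), let v' : Fin 3 → Fin M → R := ![v 0, v 1, w]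
      x ^ 2 = qa B v' * y ^ 2 + qb B v' ∧ upt B v' x y = u := by
  obtain ⟨i1, h1⟩ := h1.exists_right_inv
  obtain ⟨i2, h2⟩ := h2.exists_right_inv
  rw [D1_eq] at h1
  rw [D2_eq] at h2
  rw [← lm_apply] at hu
  refine ⟨vOf (lm B) i1 i2 (v 0) (v 1) u, xOf (lm B) i1 (v 0) u, yOf (lm B) i1 i2 (v 0) (v 1) u,
    ?_, ?_⟩
  · unfold qa qb
    rw [D1_eq, D2_eq, D3_eq B hB]
    exact conic_vOf (lm B) (lm_symm B hB) h1 h2 hu
  · rw [upt_eq]
    exact vec_vOf (lm B) (lm_symm B hB) h1 h2 u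

end Pool.Agent.Helper92.QU
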